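import Mathlib
import Pool.Agent.H37.Incidence

/-!
# Point-line incidences in space with at most two lines in every plane

Points, lines and planes are those of `ℝ³`; `inc P L` is the number of incidences between a finite set `P` of points
and a finite set `L` of lines.

`result`:
* (1) for all `m, n` with `n ≥ 1` and `12 n ^ (2 / 3) ≤ m ≤ 12 n ^ (4 / 3)` there are exactly `m` points and exactly
  `n` lines, at most two of the lines in any plane, with at least `m ^ (1 / 2) n ^ (2 / 3) / 222` incidences;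
* (2) for every `ε > 0` there is `δ > 0` such that for all large `n` and all `m` with
  `n ^ (2 / 3 + ε) ≤ m ≤ n ^ (1 - ε)` there are exactly `m` points and exactly `n` lines, at most two of the lines in
  any plane, with at least `n ^ δ (m ^ (2 / 3) n ^ (1 / 2) + m + n)` incidences;
* (3) for a positive integer `s`, the bound `I(P, L) ≤ C (m ^ (2 / 3) n ^ (1 / 2) + m + n)`, for some `C = C(s)` and all
  `m` points and `n` lines with at most `s` of the lines in any plane, holds if and only if `s = 1`.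

The lines are a generic projection of lines on the quadric `x₅ = x₁ x₄ - x₂² - x₃²` in `ℝ⁵`.
-/

set_option autoImplicit false

namespace Pool.Agent.Results.MP_ef9ee6_co.TwoLinesInAPlane

open Finset Module Pool.Agent.H37

/-- Space. -/
abbrev Space := EuclideanSpace ℝ (Fin 3)

/-- A line: a set `{p + t v : t ∈ ℝ}` with `v ≠ 0`. -/
def IsLine (l : Set Space) : Prop :=
  ∃ p v : Space, v ≠ 0 ∧ l = {x | ∃ t : ℝ, x = p + t • v}

/-- A plane: a set `{x : a₀ x₀ + a₁ x₁ + a₂ x₂ = c}` with `a ≠ 0`. -/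
def IsPlane (π : Set Space) : Prop :=
  ∃ (a : Fin 3 → ℝ) (c : ℝ), a ≠ 0 ∧ π = {x | a 0 * x 0 + a 1 * x 1 + a 2 * x 2 = c}

open Classical in
/-- The number of incidences between `P` and `L`. -/
noncomputable def inc (P : Finset Space) (L : Finset (Set Space)) : ℕ :=
  ((P ×ˢ L).filter fun x => x.1 ∈ x.2).card

open Classical in
/-- `L` is a set of lines, at most `s` of them in any plane. -/
def AtMost (s : ℕ) (L : Finset (Set Space)) : Prop :=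
  (∀ l ∈ L, IsLine l) ∧ ∀ π, IsPlane π → (L.filter fun l => l ⊆ π).card ≤ s

/-! ### Planes -/

private def fct (a : Fin 3 → ℝ) : Space →ₗ[ℝ] ℝ where
  toFun x := a 0 * x 0 + a 1 * x 1 + a 2 * x 2
  map_add' x y := by simp; ring
  map_smul' r x := by simp; ring

private theorem fct_apply (a : Fin 3 → ℝ) (x : Space) :
    fct a x = a 0 * x 0 + a 1 * x 1 + a 2 * x 2 := rfl

private theorem finrank_ker {a : Fin 3 → ℝ} (ha : a ≠ 0) : finrank ℝ (LinearMap.ker (fct a)) ≤ 2 := by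
  have h1 := (fct a).finrank_range_add_finrank_ker
  have h2 : finrank ℝ Space = 3 := by simp
  have h3 : 0 < finrank ℝ (LinearMap.range (fct a)) := by
    rw [Module.finrank_pos_iff_exists_ne_zero]
    by_contra hcon
    push Not at hcon
    apply ha
    ext i
    have h4 : fct a (WithLp.toLp 2 (Pi.single i 1)) = a i := by
      rw [fct_apply]
      fin_cases i <;> simp
    have h5 := hcon ⟨fct a (WithLp.toLp 2 (Pi.single i 1)), ⟨_, rfl⟩⟩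
    have h6 := congrArg Subtype.val h5
    simp only [h4] at h6
    simpa using h6
  omega

/-! ### The lines -/

private def line (f : (Fin 5 → ℝ) →ₗ[ℝ] E3) (w : Par) : Set Space :=
  {x | ∃ t : ℝ, x = f (pbase w) + t • f (pdir w)}

private def fam' (W : Finset Par) : Set (Fin 5 → ℝ) :=
  (pdir '' (W : Set Par)) ∪
    ((fun x : Par × Par => pbase x.2 - pbase x.1) '' ((W : Set Par) ×ˢ (W : Set Par))) ∪
    ((fun x : Par × Par => pdir x.2 - pdir x.1) '' ((W : Set Par) ×ˢ (W : Set Par))) ∪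
    {std1, std2}

private theorem fam'_finite (W : Finset Par) : (fam' W).Finite := by
  unfold fam'
  refine Set.Finite.union (Set.Finite.union (Set.Finite.union ?_ ?_) ?_) ?_
  · exact (Finset.finite_toSet _).image _
  · exact ((Finset.finite_toSet _).prod (Finset.finite_toSet _)).image _
  · exact ((Finset.finite_toSet _).prod (Finset.finite_toSet _)).image _
  · exact Set.toFinite _

private theorem exists_proj' (W : Finset Par) : ∃ f : (Fin 5 → ℝ) →ₗ[ℝ] E3,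
    ∀ x ∈ fam' W, ∀ y ∈ fam' W, ∀ z ∈ fam' W,
      LinearIndependent ℝ ![x, y, z] → LinearIndependent ℝ ![f x, f y, f z] := by
  obtain ⟨f, hf⟩ := exists_generic_projection 2 (Fin 5 → ℝ) (by simp)
    {v | (∀ i, v i ∈ fam' W) ∧ LinearIndependent ℝ v}
    ((Set.Finite.pi' (fun _ : Fin 3 => fam'_finite W)).subset (fun v hv => hv.1))
    (fun v hv => hv.2)
  refine ⟨f, fun x hx y hy z hz h => ?_⟩
  have h1 := hf ![x, y, z] ⟨fun i => by fin_cases i <;> simp [hx, hy, hz], h⟩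
  have h2 : (fun i => f (![x, y, z] i)) = ![f x, f y, f z] := by
    ext i : 1
    fin_cases i <;> rfl
  rwa [h2] at h1

private theorem mem_dir {W : Finset Par} {w : Par} (hw : w ∈ W) : pdir w ∈ fam' W :=
  Or.inl (Or.inl (Or.inl ⟨w, hw, rfl⟩))

private theorem mem_base {W : Finset Par} {w w' : Par} (hw : w ∈ W) (hw' : w' ∈ W) :
    pbase w' - pbase w ∈ fam' W :=
  Or.inl (Or.inl (Or.inr ⟨(w, w'), ⟨hw, hw'⟩, rfl⟩))

private theorem mem_ddir {W : Finset Par} {w w' : Par} (hw : w ∈ W) (hw' : w' ∈ W) :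
    pdir w' - pdir w ∈ fam' W :=
  Or.inl (Or.inr ⟨(w, w'), ⟨hw, hw'⟩, rfl⟩)

private theorem mem_std1 {W : Finset Par} : std1 ∈ fam' W := Or.inr (by simp)
private theorem mem_std2 {W : Finset Par} : std2 ∈ fam' W := Or.inr (by simp)

private theorem mem_line (f : (Fin 5 → ℝ) →ₗ[ℝ] E3) (w : Par) (t : ℝ) :
    f (pbase w) + t • f (pdir w) ∈ line f w := ⟨t, rfl⟩

/-- Finitely many lines of the family, projected generically: they are different lines, at most two in a plane. -/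
private theorem family (W : Finset Par) : ∃ f : (Fin 5 → ℝ) →ₗ[ℝ] E3,
    (∀ w ∈ W, f (pdir w) ≠ 0) ∧ (∀ w ∈ W, ∀ w' ∈ W, line f w = line f w' → w = w') ∧
    AtMost 2 (by classical exact W.image (line f)) := by
  classical
  obtain ⟨f, hf⟩ := exists_proj' W
  have hdir : ∀ w ∈ W, f (pdir w) ≠ 0 := by
    intro w hw
    have h := hf _ (mem_dir hw) _ mem_std1 _ mem_std2
      (dir_std (by simp [pdir, qdir]))
    exact h.ne_zero 0
  refine ⟨f, hdir, ?_, ?_, ?_⟩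
  · intro w hw w' hw' hl
    have h0 : f (pbase w') ∈ line f w := by
      rw [hl]
      simpa using mem_line f w' 0
    have h01 : f (pbase w') + (1 : ℝ) • f (pdir w') ∈ line f w := by
      rw [hl]
      exact mem_line f w' 1
    obtain ⟨t, ht⟩ := h0
    obtain ⟨t', ht'⟩ := h01
    have hb : f (pbase w' - pbase w) ∈ Submodule.span ℝ {f (pdir w)} := by
      rw [map_sub, ht, add_sub_cancel_left]
      exact Submodule.smul_mem _ _ (Submodule.mem_span_singleton_self _)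
    have hd : f (pdir w') ∈ Submodule.span ℝ {f (pdir w)} := by
      have h1 : f (pdir w') = (t' - t) • f (pdir w) := by
        rw [ht, one_smul, add_assoc, add_right_inj] at ht'
        rw [sub_smul, ← ht', add_sub_cancel_left]
      rw [h1]
      exact Submodule.smul_mem _ _ (Submodule.mem_span_singleton_self _)
    have hkey : ∀ y ∈ fam' W, y 0 = 0 → f y ∈ Submodule.span ℝ {f (pdir w)} → y = 0 := by
      intro y hy hy0 hfy
      by_contra hne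
      have gen : ∀ e ∈ fam' W, ¬ LinearIndependent ℝ ![f (pdir w), f y, f e] := by
        intro e _ hli
        rw [Submodule.mem_span_singleton] at hfy
        obtain ⟨a, ha⟩ := hfy
        rw [Fintype.linearIndependent_iff] at hli
        have h2 := hli ![a, -1, 0] (by simp [Fin.sum_univ_three, ha])
        have h3 := h2 1
        simp at h3
      rcases triple_exists (v := pdir w) (y := y) (by simp [pdir, qdir]) hy0 hne with h | h
      · exact gen _ mem_std1 (hf _ (mem_dir hw) _ hy _ mem_std1 h)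
      · exact gen _ mem_std2 (hf _ (mem_dir hw) _ hy _ mem_std2 h)
    have h1 : pbase w' - pbase w = 0 := hkey _ (mem_base hw hw') (by simp [pbase, qbase]) hb
    have h2 : pdir w' - pdir w = 0 := hkey _ (mem_ddir hw hw') (by simp [pdir, qdir])
      (by rw [map_sub]; exact Submodule.sub_mem _ hd (Submodule.mem_span_singleton_self _))
    obtain ⟨b, c, e, p, q⟩ := w
    obtain ⟨b', c', e', p', q'⟩ := w'
    have A1 := congrFun h1 1
    have A2 := congrFun h1 2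
    have A3 := congrFun h1 3
    have B1 := congrFun h2 1
    have B2 := congrFun h2 2
    simp [pbase, pdir, qbase, qdir, sub_eq_zero] at A1 A2 A3 B1 B2
    simp [A1, A2, A3, B1, B2]
  · intro l hl
    obtain ⟨w, hw, hwl⟩ := Finset.mem_image.1 hl
    exact ⟨f (pbase w), f (pdir w), hdir w hw, hwl.symm⟩
  · rintro π ⟨a, c, ha, rfl⟩
    by_contra hcon
    push Not at hcon
    obtain ⟨l₁, hl₁, l₂, hl₂, l₃, hl₃, h12, h13, h23⟩ := Finset.two_lt_card.1 hcon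
    obtain ⟨hl₁, hp₁⟩ := Finset.mem_filter.1 hl₁
    obtain ⟨hl₂, hp₂⟩ := Finset.mem_filter.1 hl₂
    obtain ⟨hl₃, hp₃⟩ := Finset.mem_filter.1 hl₃
    obtain ⟨w₁, hw₁, rfl⟩ := Finset.mem_image.1 hl₁
    obtain ⟨w₂, hw₂, rfl⟩ := Finset.mem_image.1 hl₂
    obtain ⟨w₃, hw₃, rfl⟩ := Finset.mem_image.1 hl₃
    have hval : ∀ w, line f w ⊆ {x | a 0 * x 0 + a 1 * x 1 + a 2 * x 2 = c} →
        fct a (f (pbase w)) = c ∧ fct a (f (pdir w)) = 0 := by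
      intro w hle
      have h0 : fct a (f (pbase w)) = c := by
        have := hle (mem_line f w 0)
        rw [zero_smul, add_zero] at this
        exact this
      have h1 : fct a (f (pbase w) + (1 : ℝ) • f (pdir w)) = c := hle (mem_line f w 1)
      rw [map_add, one_smul, h0] at h1
      exact ⟨h0, by linarith⟩
    have hdm : ∀ w, line f w ⊆ {x | a 0 * x 0 + a 1 * x 1 + a 2 * x 2 = c} →
        f (pdir w) ∈ LinearMap.ker (fct a) := fun w hle => (hval w hle).2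
    have hbm : ∀ w w', line f w ⊆ {x | a 0 * x 0 + a 1 * x 1 + a 2 * x 2 = c} →
        line f w' ⊆ {x | a 0 * x 0 + a 1 * x 1 + a 2 * x 2 = c} →
        f (pbase w' - pbase w) ∈ LinearMap.ker (fct a) := by
      intro w w' hle hle'
      rw [LinearMap.mem_ker, map_sub, map_sub, (hval w hle).1, (hval w' hle').1, sub_self]
    have h3 := three_lines (b₁ := (w₁.1 : ℝ)) (c₁ := w₁.2.1) (e₁ := w₁.2.2.1)
      (p₁ := w₁.2.2.2.1) (q₁ := w₁.2.2.2.2) (b₂ := (w₂.1 : ℝ)) (c₂ := w₂.2.1)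
      (e₂ := w₂.2.2.1) (p₂ := w₂.2.2.2.1) (q₂ := w₂.2.2.2.2) (b₃ := (w₃.1 : ℝ))
      (c₃ := w₃.2.1) (e₃ := w₃.2.2.1) (p₃ := w₃.2.2.2.1) (q₃ := w₃.2.2.2.2)
      {x | x ∈ fam' W ∧ f x ∈ LinearMap.ker (fct a)}
      ⟨mem_dir hw₁, hdm _ hp₁⟩ ⟨mem_dir hw₂, hdm _ hp₂⟩ ⟨mem_dir hw₃, hdm _ hp₃⟩
      ⟨mem_base hw₁ hw₂, hbm _ _ hp₁ hp₂⟩ ⟨mem_base hw₁ hw₃, hbm _ _ hp₁ hp₃⟩
      (fun x hx y hy z hz hli => not_li_of_finrank _ (finrank_ker ha) hx.2 hy.2 hz.2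
        (hf x hx.1 y hy.1 z hz.1 hli))
    obtain ⟨b₁, c₁, e₁, p₁, q₁⟩ := w₁
    obtain ⟨b₂, c₂, e₂, p₂, q₂⟩ := w₂
    obtain ⟨b₃, c₃, e₃, p₃, q₃⟩ := w₃
    simp only [Nat.cast_inj] at h3
    rcases h3 with ⟨rfl, rfl, rfl, rfl, rfl⟩ | ⟨rfl, rfl, rfl, rfl, rfl⟩ | ⟨rfl, rfl, rfl, rfl, rfl⟩
    · exact h12 rfl
    · exact h13 rfl
    · exact h23 rfl

/-! ### The grids -/

private def grid' (A Q : ℕ) : Finset Par :=
  Finset.range (A * Q) ×ˢ Finset.range (A * Q) ×ˢ Finset.range (A * Q ^ 2) ×ˢ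
    Finset.range Q ×ˢ Finset.range Q

private def pgrid' (A Q : ℕ) : Finset (ℕ × ℕ × ℕ × ℕ) :=
  Finset.range A ×ˢ Finset.range (2 * (A * Q)) ×ˢ Finset.range (2 * (A * Q)) ×ˢ
    Finset.range (3 * (A * Q ^ 2))

private theorem card_grid' (A Q : ℕ) : (grid' A Q).card = A ^ 3 * Q ^ 6 := by
  simp [grid', Finset.card_product]
  ring

private theorem card_pgrid' (A Q : ℕ) : (pgrid' A Q).card = 12 * (A ^ 4 * Q ^ 4) := by
  simp [pgrid', Finset.card_product]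
  ring

private theorem on_grid' {A Q : ℕ} {w : Par} (hw : w ∈ grid' A Q) {t : ℕ} (ht : t < A) :
    (t, w.1 + t * w.2.2.2.1, w.2.1 + t * w.2.2.2.2,
        w.2.2.1 + t * (w.2.2.2.1 ^ 2 + w.2.2.2.2 ^ 2)) ∈ pgrid' A Q := by
  obtain ⟨b, c, e, p, q⟩ := w
  simp only [grid', Finset.mem_product, Finset.mem_range] at hw
  obtain ⟨hb, hc, he, hp, hq⟩ := hw
  simp only [pgrid', Finset.mem_product, Finset.mem_range]
  have h1 : t * p ≤ A * Q := Nat.mul_le_mul ht.le hp.le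
  have h2 : t * q ≤ A * Q := Nat.mul_le_mul ht.le hq.le
  have hp2 : p ^ 2 ≤ Q ^ 2 := Nat.pow_le_pow_left hp.le 2
  have hq2 : q ^ 2 ≤ Q ^ 2 := Nat.pow_le_pow_left hq.le 2
  have h3 : t * (p ^ 2 + q ^ 2) ≤ 2 * (A * Q ^ 2) := by
    calc t * (p ^ 2 + q ^ 2) ≤ A * (Q ^ 2 + Q ^ 2) := Nat.mul_le_mul ht.le (Nat.add_le_add hp2 hq2)
      _ = 2 * (A * Q ^ 2) := by ring
  exact ⟨ht, by omega, by omega, by omega⟩

/-- The construction with exact numbers of points and lines. -/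
private theorem exact_numbers (A Q m n : ℕ) (hm : 12 * (A ^ 4 * Q ^ 4) ≤ m) (hn : A ^ 3 * Q ^ 6 ≤ n) :
    ∃ (P : Finset Space) (L : Finset (Set Space)), P.card = m ∧ L.card = n ∧ AtMost 2 L ∧
      A ^ 4 * Q ^ 6 ≤ inc P L := by
  classical
  obtain ⟨W, hGW, hW⟩ := Infinite.exists_superset_card_eq (grid' A Q) n (by rwa [card_grid'])
  obtain ⟨f, hdir, hinj, hL⟩ := family W
  obtain ⟨P, hP1, hP2⟩ := Infinite.exists_superset_card_eq
    ((pgrid' A Q).image (fun x => (f (qpt x) : Space))) m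
    (Finset.card_image_le.trans (by rwa [card_pgrid']))
  refine ⟨P, W.image (line f), hP2, ?_, hL, ?_⟩
  · rw [Finset.card_image_of_injOn, hW]
    exact fun w hw w' hw' h => hinj w hw w' hw' h
  let T : Finset (Par × ℕ) := grid' A Q ×ˢ Finset.range A
  have hT : T.card = A ^ 4 * Q ^ 6 := by
    simp only [T, Finset.card_product, card_grid', Finset.card_range]
    ring
  let Φ : Par × ℕ → Space × Set Space := fun x =>
    (f (pbase x.1) + (x.2 : ℝ) • f (pdir x.1), line f x.1)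
  have hΦ : Set.InjOn Φ (T : Set (Par × ℕ)) := by
    rintro ⟨w, t⟩ hx ⟨w', t'⟩ hx' h
    have hx1 := Finset.mem_product.1 (Finset.mem_coe.1 hx)
    have hx1' := Finset.mem_product.1 (Finset.mem_coe.1 hx')
    have h1 : line f w = line f w' := congrArg Prod.snd h
    have h2 : w = w' := hinj w (hGW hx1.1) w' (hGW hx1'.1) h1
    subst h2
    have h3 : f (pbase w) + (t : ℝ) • f (pdir w) = f (pbase w) + (t' : ℝ) • f (pdir w) :=
      congrArg Prod.fst h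
    rw [add_right_inj] at h3
    have h4 : ((t : ℝ) - t') • f (pdir w) = 0 := by rw [sub_smul, h3, sub_self]
    rcases smul_eq_zero.1 h4 with h5 | h5
    · have : (t : ℝ) = t' := by linarith
      have : t = t' := by exact_mod_cast this
      rw [this]
    · exact absurd h5 (hdir w (hGW hx1.1))
  rw [← hT, inc, ← Finset.card_image_of_injOn hΦ]
  apply Finset.card_le_card
  intro y hy
  obtain ⟨⟨w, t⟩, hx, rfl⟩ := Finset.mem_image.1 hy
  have hx1 := Finset.mem_product.1 hx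
  rw [Finset.mem_filter, Finset.mem_product]
  refine ⟨⟨hP1 ?_, Finset.mem_image.2 ⟨w, hGW hx1.1, rfl⟩⟩, ⟨(t : ℝ), rfl⟩⟩
  refine Finset.mem_image.2 ⟨_, on_grid' hx1.1 (Finset.mem_range.1 hx1.2), ?_⟩
  simp only [Φ]
  rw [← on_line, map_add, map_smul]

/-! ### Numbers -/

/-- The choice of the parameters: `x ^ 4 = m / 12`, `y ^ 3 = n`. -/
private theorem choice {x y : ℝ} (hx : 0 < x) (h1 : y ≤ x ^ 2) (h2 : x ≤ y) :
    ∃ A Q : ℕ, (A : ℝ) ^ 4 * (Q : ℝ) ^ 4 ≤ x ^ 4 ∧ (A : ℝ) ^ 3 * (Q : ℝ) ^ 6 ≤ y ^ 3 ∧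
      x ^ 2 * y ^ 2 ≤ 64 * ((A : ℝ) ^ 4 * (Q : ℝ) ^ 6) := by
  have hy : 0 < y := lt_of_lt_of_le hx h2
  have hq1 : 1 ≤ y / x := by rw [le_div_iff₀ hx]; linarith
  have hQ1 : 1 ≤ ⌊y / x⌋₊ := by
    rw [Nat.one_le_floor_iff]; exact hq1
  obtain ⟨Q, hQ⟩ : ∃ Q : ℕ, Q = ⌊y / x⌋₊ := ⟨_, rfl⟩
  rw [← hQ] at hQ1
  have hQ1' : (1 : ℝ) ≤ Q := by exact_mod_cast hQ1
  have hQ0 : (0 : ℝ) < Q := by linarith
  have hQle : (Q : ℝ) ≤ y / x := by rw [hQ]; exact Nat.floor_le (by positivity)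
  have hQlt : y / x < Q + 1 := by rw [hQ]; exact Nat.lt_floor_add_one _
  have hQx : (Q : ℝ) ≤ x := by
    refine hQle.trans ?_
    rw [div_le_iff₀ hx]
    nlinarith
  have ha1 : 1 ≤ x / Q := by rw [le_div_iff₀ hQ0]; linarith
  have hA1 : 1 ≤ ⌊x / Q⌋₊ := by
    rw [Nat.one_le_floor_iff]; exact ha1
  obtain ⟨A, hA⟩ : ∃ A : ℕ, A = ⌊x / Q⌋₊ := ⟨_, rfl⟩
  rw [← hA] at hA1
  have hA1' : (1 : ℝ) ≤ A := by exact_mod_cast hA1
  have hA0 : (0 : ℝ) < A := by linarith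
  have hAle : (A : ℝ) ≤ x / Q := by rw [hA]; exact Nat.floor_le (by positivity)
  have hAlt : x / Q < A + 1 := by rw [hA]; exact Nat.lt_floor_add_one _
  have hAQ : (A : ℝ) * Q ≤ x := (le_div_iff₀ hQ0).1 hAle
  have hAQ2 : x / 2 ≤ (A : ℝ) * Q := by
    have h3 : x < (A + 1) * Q := (div_lt_iff₀ hQ0).1 hAlt
    nlinarith
  have hxQ : (Q : ℝ) * x ≤ y := (le_div_iff₀ hx).1 hQle
  have hxQ2 : y / 2 ≤ (Q : ℝ) * x := by
    have h3 : y < (Q + 1) * x := (div_lt_iff₀ hx).1 hQlt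
    nlinarith
  refine ⟨A, Q, ?_, ?_, ?_⟩
  · rw [← mul_pow]
    exact pow_le_pow_left₀ (by positivity) hAQ 4
  · calc (A : ℝ) ^ 3 * (Q : ℝ) ^ 6 = (A * Q) ^ 3 * (Q : ℝ) ^ 3 := by ring
      _ ≤ x ^ 3 * (Q : ℝ) ^ 3 := by gcongr
      _ = (Q * x) ^ 3 := by ring
      _ ≤ y ^ 3 := pow_le_pow_left₀ (by positivity) hxQ 3
  · calc x ^ 2 * y ^ 2 = 4 * (x ^ 2 * (y / 2) ^ 2) := by ring
      _ ≤ 4 * (x ^ 2 * (Q * x) ^ 2) := by gcongr
      _ = 64 * ((x / 2) ^ 4 * (Q : ℝ) ^ 2) := by ring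
      _ ≤ 64 * ((A * Q) ^ 4 * (Q : ℝ) ^ 2) := by gcongr
      _ = 64 * ((A : ℝ) ^ 4 * (Q : ℝ) ^ 6) := by ring

private theorem lower (m n : ℕ) (hn : 1 ≤ n) (h1 : 12 * (n : ℝ) ^ (2 / 3 : ℝ) ≤ m)
    (h2 : (m : ℝ) ≤ 12 * (n : ℝ) ^ (4 / 3 : ℝ)) :
    ∃ (P : Finset Space) (L : Finset (Set Space)), P.card = m ∧ L.card = n ∧ AtMost 2 L ∧
      (m : ℝ) ^ (1 / 2 : ℝ) * (n : ℝ) ^ (2 / 3 : ℝ) ≤ 222 * inc P L := by
  have hn0 : (0 : ℝ) < n := by exact_mod_cast hn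
  have hm0 : (0 : ℝ) < m := lt_of_lt_of_le (by positivity) h1
  obtain ⟨x, hx⟩ : ∃ x : ℝ, x = ((m : ℝ) / 12) ^ (1 / 4 : ℝ) := ⟨_, rfl⟩
  obtain ⟨y, hy⟩ : ∃ y : ℝ, y = (n : ℝ) ^ (1 / 3 : ℝ) := ⟨_, rfl⟩
  have hx0 : 0 < x := by rw [hx]; positivity
  have hy0 : 0 < y := by rw [hy]; positivity
  have hx4 : x ^ 4 = m / 12 := by
    rw [hx, ← Real.rpow_natCast, ← Real.rpow_mul (by positivity)]
    norm_num
  have hy3 : y ^ 3 = n := by
    rw [hy, ← Real.rpow_natCast, ← Real.rpow_mul (by positivity)]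
    norm_num
  have hy2 : y ^ 2 = (n : ℝ) ^ (2 / 3 : ℝ) := by
    rw [hy, ← Real.rpow_natCast, ← Real.rpow_mul (by positivity)]
    norm_num
  have hy4 : y ^ 4 = (n : ℝ) ^ (4 / 3 : ℝ) := by
    rw [hy, ← Real.rpow_natCast, ← Real.rpow_mul (by positivity)]
    norm_num
  have k1 : y ≤ x ^ 2 := by
    have : y ^ 2 ≤ (x ^ 2) ^ 2 := by
      rw [← pow_mul, hx4, hy2]; linarith
    exact le_of_pow_le_pow_left₀ (by norm_num) (by positivity) this
  have k2 : x ≤ y := by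
    have : x ^ 4 ≤ y ^ 4 := by rw [hx4, hy4]; linarith
    exact le_of_pow_le_pow_left₀ (by norm_num) hy0.le this
  obtain ⟨A, Q, c1, c2, c3⟩ := choice hx0 k1 k2
  obtain ⟨P, L, hP, hL, h2L, hI⟩ := exact_numbers A Q m n
    (by
      rw [hx4] at c1
      have : (12 : ℝ) * ((A : ℝ) ^ 4 * (Q : ℝ) ^ 4) ≤ m := by linarith
      exact_mod_cast this)
    (by
      rw [hy3] at c2
      exact_mod_cast c2)
  refine ⟨P, L, hP, hL, h2L, ?_⟩
  have hI' : (A : ℝ) ^ 4 * (Q : ℝ) ^ 6 ≤ inc P L := by exact_mod_cast hI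
  have hm2 : (m : ℝ) ^ (1 / 2 : ℝ) ≤ 222 / 64 * x ^ 2 := by
    have e1 : (m : ℝ) ^ (1 / 2 : ℝ) = Real.sqrt m := by rw [Real.sqrt_eq_rpow]
    rw [e1]
    apply Real.sqrt_le_iff.2
    refine ⟨by positivity, ?_⟩
    rw [mul_pow, ← pow_mul, hx4]
    norm_num
    linarith
  calc (m : ℝ) ^ (1 / 2 : ℝ) * (n : ℝ) ^ (2 / 3 : ℝ) ≤ 222 / 64 * x ^ 2 * y ^ 2 := by
        rw [hy2]; gcongr
    _ = 222 / 64 * (x ^ 2 * y ^ 2) := by ring
    _ ≤ 222 / 64 * (64 * ((A : ℝ) ^ 4 * (Q : ℝ) ^ 6)) := by gcongr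
    _ ≤ 222 / 64 * (64 * inc P L) := by gcongr
    _ = 222 * inc P L := by ring

private theorem range_lower (ε : ℝ) (hε : 0 < ε) : ∃ δ : ℝ, 0 < δ ∧ ∃ n₀ : ℕ, ∀ n : ℕ, n₀ ≤ n →
    ∀ m : ℕ, (n : ℝ) ^ (2 / 3 + ε) ≤ m → (m : ℝ) ≤ (n : ℝ) ^ (1 - ε) →
      ∃ (P : Finset Space) (L : Finset (Set Space)), P.card = m ∧ L.card = n ∧ AtMost 2 L ∧
        (n : ℝ) ^ δ * ((m : ℝ) ^ (2 / 3 : ℝ) * (n : ℝ) ^ (1 / 2 : ℝ) + m + n) ≤ inc P L := by
  have t1 : Filter.Tendsto (fun n : ℕ => (n : ℝ) ^ (ε / 12)) Filter.atTop Filter.atTop :=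
    (tendsto_rpow_atTop (by positivity)).comp tendsto_natCast_atTop_atTop
  obtain ⟨n₁, hn₁⟩ := Filter.eventually_atTop.1 (t1.eventually_ge_atTop 666)
  refine ⟨ε / 12, by positivity, max n₁ 1, fun n hn m hm1 hm2 => ?_⟩
  have hn1 : 1 ≤ n := le_trans (le_max_right _ _) hn
  have hn1' : (1 : ℝ) ≤ n := by exact_mod_cast hn1
  have hn0 : (0 : ℝ) < n := by linarith
  have h666 : (666 : ℝ) ≤ (n : ℝ) ^ (ε / 12) := hn₁ n (le_trans (le_max_left _ _) hn)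
  have hm0 : (0 : ℝ) < m := lt_of_lt_of_le (by positivity) hm1
  obtain ⟨P, L, hP, hL, h2L, hI⟩ := lower m n hn1
    (by
      refine le_trans ?_ hm1
      rw [Real.rpow_add hn0, mul_comm]
      have : (12 : ℝ) ≤ (n : ℝ) ^ ε :=
        le_trans (by linarith) (Real.rpow_le_rpow_of_exponent_le hn1' (by linarith : ε / 12 ≤ ε))
      gcongr)
    (by
      refine le_trans hm2 ?_
      have : (n : ℝ) ^ (1 - ε) ≤ (n : ℝ) ^ (4 / 3 : ℝ) :=
        Real.rpow_le_rpow_of_exponent_le hn1' (by linarith)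
      have h3 : (0 : ℝ) ≤ (n : ℝ) ^ (4 / 3 : ℝ) := by positivity
      linarith)
  refine ⟨P, L, hP, hL, h2L, ?_⟩
  have a1 : (n : ℝ) ^ (ε / 6) * ((m : ℝ) ^ (2 / 3 : ℝ) * (n : ℝ) ^ (1 / 2 : ℝ)) ≤
      (m : ℝ) ^ (1 / 2 : ℝ) * (n : ℝ) ^ (2 / 3 : ℝ) := by
    have e1 : (m : ℝ) ^ (2 / 3 : ℝ) = (m : ℝ) ^ (1 / 2 : ℝ) * (m : ℝ) ^ (1 / 6 : ℝ) := by
      rw [← Real.rpow_add hm0]; norm_num
    have e2 : (m : ℝ) ^ (1 / 6 : ℝ) ≤ (n : ℝ) ^ ((1 - ε) * (1 / 6)) := by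
      rw [Real.rpow_mul hn0.le]
      exact Real.rpow_le_rpow hm0.le hm2 (by norm_num)
    calc (n : ℝ) ^ (ε / 6) * ((m : ℝ) ^ (2 / 3 : ℝ) * (n : ℝ) ^ (1 / 2 : ℝ)) =
        (n : ℝ) ^ (ε / 6) * ((m : ℝ) ^ (1 / 2 : ℝ) * (m : ℝ) ^ (1 / 6 : ℝ) * (n : ℝ) ^ (1 / 2 : ℝ)) := by
          rw [e1]
      _ ≤ (n : ℝ) ^ (ε / 6) * ((m : ℝ) ^ (1 / 2 : ℝ) * (n : ℝ) ^ ((1 - ε) * (1 / 6)) *
          (n : ℝ) ^ (1 / 2 : ℝ)) := by gcongr
      _ = (m : ℝ) ^ (1 / 2 : ℝ) * ((n : ℝ) ^ (ε / 6) * (n : ℝ) ^ ((1 - ε) * (1 / 6)) *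
          (n : ℝ) ^ (1 / 2 : ℝ)) := by ring
      _ = (m : ℝ) ^ (1 / 2 : ℝ) * (n : ℝ) ^ (2 / 3 : ℝ) := by
          rw [← Real.rpow_add hn0, ← Real.rpow_add hn0]
          ring_nf
  have a2 : (n : ℝ) ^ (ε / 6) * m ≤ (m : ℝ) ^ (1 / 2 : ℝ) * (n : ℝ) ^ (2 / 3 : ℝ) := by
    have e1 : (m : ℝ) = (m : ℝ) ^ (1 / 2 : ℝ) * (m : ℝ) ^ (1 / 2 : ℝ) := by
      rw [← Real.rpow_add hm0]; norm_num
    have e2 : (m : ℝ) ^ (1 / 2 : ℝ) ≤ (n : ℝ) ^ ((1 - ε) * (1 / 2)) := by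
      rw [Real.rpow_mul hn0.le]
      exact Real.rpow_le_rpow hm0.le hm2 (by norm_num)
    calc (n : ℝ) ^ (ε / 6) * m = (n : ℝ) ^ (ε / 6) * ((m : ℝ) ^ (1 / 2 : ℝ) * (m : ℝ) ^ (1 / 2 : ℝ)) := by
          rw [← e1]
      _ ≤ (n : ℝ) ^ (ε / 6) * ((m : ℝ) ^ (1 / 2 : ℝ) * (n : ℝ) ^ ((1 - ε) * (1 / 2))) := by gcongr
      _ = (m : ℝ) ^ (1 / 2 : ℝ) * ((n : ℝ) ^ (ε / 6) * (n : ℝ) ^ ((1 - ε) * (1 / 2))) := by ring
      _ ≤ (m : ℝ) ^ (1 / 2 : ℝ) * (n : ℝ) ^ (2 / 3 : ℝ) := by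
          rw [← Real.rpow_add hn0]
          have : (n : ℝ) ^ (ε / 6 + (1 - ε) * (1 / 2)) ≤ (n : ℝ) ^ (2 / 3 : ℝ) :=
            Real.rpow_le_rpow_of_exponent_le hn1' (by linarith)
          gcongr
  have a3 : (n : ℝ) ^ (ε / 6) * n ≤ (m : ℝ) ^ (1 / 2 : ℝ) * (n : ℝ) ^ (2 / 3 : ℝ) := by
    have e2 : (n : ℝ) ^ ((2 / 3 + ε) * (1 / 2)) ≤ (m : ℝ) ^ (1 / 2 : ℝ) := by
      rw [Real.rpow_mul hn0.le]
      exact Real.rpow_le_rpow (by positivity) hm1 (by norm_num)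
    calc (n : ℝ) ^ (ε / 6) * n = (n : ℝ) ^ (ε / 6 + 1) := by
          rw [Real.rpow_add hn0, Real.rpow_one]
      _ ≤ (n : ℝ) ^ ((2 / 3 + ε) * (1 / 2) + 2 / 3) :=
          Real.rpow_le_rpow_of_exponent_le hn1' (by linarith)
      _ = (n : ℝ) ^ ((2 / 3 + ε) * (1 / 2)) * (n : ℝ) ^ (2 / 3 : ℝ) := by
          rw [← Real.rpow_add hn0]
      _ ≤ (m : ℝ) ^ (1 / 2 : ℝ) * (n : ℝ) ^ (2 / 3 : ℝ) := by gcongr
  have e6 : (n : ℝ) ^ (ε / 6) = (n : ℝ) ^ (ε / 12) * (n : ℝ) ^ (ε / 12) := by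
    rw [← Real.rpow_add hn0]; ring_nf
  have hs : 0 ≤ (n : ℝ) ^ (ε / 12) * ((m : ℝ) ^ (2 / 3 : ℝ) * (n : ℝ) ^ (1 / 2 : ℝ) + m + n) := by
    positivity
  have b1 : 666 * ((n : ℝ) ^ (ε / 12) * ((m : ℝ) ^ (2 / 3 : ℝ) * (n : ℝ) ^ (1 / 2 : ℝ) + m + n)) ≤
      666 * inc P L := by
    calc 666 * ((n : ℝ) ^ (ε / 12) * ((m : ℝ) ^ (2 / 3 : ℝ) * (n : ℝ) ^ (1 / 2 : ℝ) + m + n)) ≤
        (n : ℝ) ^ (ε / 12) *
          ((n : ℝ) ^ (ε / 12) * ((m : ℝ) ^ (2 / 3 : ℝ) * (n : ℝ) ^ (1 / 2 : ℝ) + m + n)) :=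
          mul_le_mul_of_nonneg_right h666 hs
      _ = (n : ℝ) ^ (ε / 6) * ((m : ℝ) ^ (2 / 3 : ℝ) * (n : ℝ) ^ (1 / 2 : ℝ)) +
          (n : ℝ) ^ (ε / 6) * m + (n : ℝ) ^ (ε / 6) * n := by rw [e6]; ring
      _ ≤ 666 * inc P L := by linarith
  linarith

/-! ### One line in every plane -/

private theorem plane_of_lines {l l' : Set Space} (hl : IsLine l) (hl' : IsLine l') {p : Space}
    (hp : p ∈ l) (hp' : p ∈ l') : ∃ π, IsPlane π ∧ l ⊆ π ∧ l' ⊆ π := by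
  obtain ⟨p₀, v, -, rfl⟩ := hl
  obtain ⟨p₁, w, -, rfl⟩ := hl'
  obtain ⟨t₀, ht₀⟩ := hp
  obtain ⟨t₁, ht₁⟩ := hp'
  let φ : (Fin 3 → ℝ) →ₗ[ℝ] (Fin 2 → ℝ) :=
    { toFun := fun a => ![a 0 * v 0 + a 1 * v 1 + a 2 * v 2, a 0 * w 0 + a 1 * w 1 + a 2 * w 2]
      map_add' := fun a b => by
        ext i
        fin_cases i <;> simp <;> ring
      map_smul' := fun r a => by
        ext i
        fin_cases i <;> simp <;> ring }
  have hker : LinearMap.ker φ ≠ ⊥ := LinearMap.ker_ne_bot_of_finrank_lt (by simp)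
  obtain ⟨a, ha, ha0⟩ := Submodule.exists_mem_ne_zero_of_ne_bot hker
  rw [LinearMap.mem_ker] at ha
  have hv : fct a v = 0 := congrFun ha 0
  have hw : fct a w = 0 := congrFun ha 1
  have key : ∀ {q u : Space} {s : ℝ}, fct a u = 0 → p = q + s • u →
      {x | ∃ t : ℝ, x = q + t • u} ⊆ {x | a 0 * x 0 + a 1 * x 1 + a 2 * x 2 = fct a p} := by
    rintro q u s hu hpq x ⟨t, rfl⟩
    change fct a (q + t • u) = fct a p
    rw [hpq, map_add, map_add, map_smul, map_smul, hu]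
    simp
  exact ⟨_, ⟨a, fct a p, ha0, rfl⟩, key hv ht₀, key hw ht₁⟩

private theorem inc_le_card {P : Finset Space} {L : Finset (Set Space)} (hL : AtMost 1 L) :
    inc P L ≤ P.card := by
  classical
  unfold inc
  refine Finset.card_le_card_of_injOn Prod.fst ?_ ?_
  · intro x hx
    exact (Finset.mem_product.1 (Finset.mem_filter.1 (Finset.mem_coe.1 hx)).1).1
  · rintro ⟨p, l⟩ hx ⟨p', l'⟩ hx' hpp
    simp only at hpp
    subst hpp
    obtain ⟨hx1, hx2⟩ := Finset.mem_filter.1 (Finset.mem_coe.1 hx)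
    obtain ⟨hx1', hx2'⟩ := Finset.mem_filter.1 (Finset.mem_coe.1 hx')
    have hl := (Finset.mem_product.1 hx1).2
    have hl' := (Finset.mem_product.1 hx1').2
    obtain ⟨π, hπ, h1, h2⟩ := plane_of_lines (hL.1 l hl) (hL.1 l' hl') hx2 hx2'
    have h3 := Finset.card_le_one.1 (hL.2 π hπ) l (Finset.mem_filter.2 ⟨hl, h1⟩) l'
      (Finset.mem_filter.2 ⟨hl', h2⟩)
    rw [Prod.mk.injEq]
    exact ⟨rfl, h3⟩

/-- Point-line incidences in space: Q1 is false for every `s ≥ 2` (and true for `s = 1`); see (1), (2), (3) above. -/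
theorem result :
    (∀ m n : ℕ, 1 ≤ n → 12 * (n : ℝ) ^ (2 / 3 : ℝ) ≤ m → (m : ℝ) ≤ 12 * (n : ℝ) ^ (4 / 3 : ℝ) →
      ∃ (P : Finset Space) (L : Finset (Set Space)), P.card = m ∧ L.card = n ∧ AtMost 2 L ∧
        (m : ℝ) ^ (1 / 2 : ℝ) * (n : ℝ) ^ (2 / 3 : ℝ) / 222 ≤ inc P L) ∧
    (∀ ε : ℝ, 0 < ε → ∃ δ : ℝ, 0 < δ ∧ ∃ n₀ : ℕ, ∀ n : ℕ, n₀ ≤ n →
      ∀ m : ℕ, (n : ℝ) ^ (2 / 3 + ε) ≤ m → (m : ℝ) ≤ (n : ℝ) ^ (1 - ε) →
      ∃ (P : Finset Space) (L : Finset (Set Space)), P.card = m ∧ L.card = n ∧ AtMost 2 L ∧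
        (n : ℝ) ^ δ * ((m : ℝ) ^ (2 / 3 : ℝ) * (n : ℝ) ^ (1 / 2 : ℝ) + m + n) ≤ inc P L) ∧
    (∀ s : ℕ, 1 ≤ s →
      ((∃ C : ℝ, ∀ (P : Finset Space) (L : Finset (Set Space)), AtMost s L →
        (inc P L : ℝ) ≤
          C * ((P.card : ℝ) ^ (2 / 3 : ℝ) * (L.card : ℝ) ^ (1 / 2 : ℝ) + P.card + L.card)) ↔
      s = 1)) := by
  refine ⟨?_, range_lower, ?_⟩
  · intro m n hn h1 h2
    obtain ⟨P, L, hP, hL, h2L, hI⟩ := lower m n hn h1 h2
    exact ⟨P, L, hP, hL, h2L, by linarith⟩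
  · intro s hs
    constructor
    · rintro ⟨C, hC⟩
      by_contra hs1
      have hs2 : 2 ≤ s := by omega
      obtain ⟨δ, hδ, n₀, h⟩ := range_lower (1 / 24) (by norm_num)
      -- m = k ^ 5, n = k ^ 6
      have t1 : Filter.Tendsto (fun n : ℕ => (n : ℝ) ^ δ) Filter.atTop Filter.atTop :=
        (tendsto_rpow_atTop hδ).comp tendsto_natCast_atTop_atTop
      obtain ⟨n₁, hn₁⟩ := Filter.eventually_atTop.1 (t1.eventually_gt_atTop C)
      obtain ⟨k, hk⟩ : ∃ k : ℕ, k = max (max n₀ n₁) 1 := ⟨_, rfl⟩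
      have hk1 : 1 ≤ k := by rw [hk]; exact le_max_right _ _
      have hk1' : (1 : ℝ) ≤ k := by exact_mod_cast hk1
      have hk0 : (0 : ℝ) < k := by linarith
      have hkk : k ≤ k ^ 6 := Nat.le_self_pow (by norm_num) k
      have hkn0 : n₀ ≤ k ^ 6 := by
        refine le_trans ?_ hkk
        rw [hk]; exact le_trans (le_max_left _ _) (le_max_left _ _)
      have hkn1 : n₁ ≤ k ^ 6 := by
        refine le_trans ?_ hkk
        rw [hk]; exact le_trans (le_max_right _ _) (le_max_left _ _)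
      obtain ⟨P, L, hP, hL, h2L, hI⟩ := h (k ^ 6) hkn0 (k ^ 5)
        (by
          push_cast
          rw [← Real.rpow_natCast, ← Real.rpow_natCast, ← Real.rpow_mul hk0.le]
          apply Real.rpow_le_rpow_of_exponent_le hk1'
          norm_num)
        (by
          push_cast
          rw [← Real.rpow_natCast, ← Real.rpow_natCast, ← Real.rpow_mul hk0.le]
          apply Real.rpow_le_rpow_of_exponent_le hk1'
          norm_num)
      have h3 := hC P L ⟨h2L.1, fun π hπ => (h2L.2 π hπ).trans hs2⟩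
      rw [hP, hL] at h3
      have h4 : C < ((k ^ 6 : ℕ) : ℝ) ^ δ := hn₁ _ hkn1
      have h5 : 0 < ((k ^ 5 : ℕ) : ℝ) ^ (2 / 3 : ℝ) * ((k ^ 6 : ℕ) : ℝ) ^ (1 / 2 : ℝ) +
          ((k ^ 5 : ℕ) : ℝ) + ((k ^ 6 : ℕ) : ℝ) := by positivity
      have h6 := hI.trans h3
      have h7 := mul_lt_mul_of_pos_right h4 h5
      linarith
    · rintro rfl
      refine ⟨1, fun P L hL => ?_⟩
      have h1 : (inc P L : ℝ) ≤ P.card := by exact_mod_cast inc_le_card hL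
      have h2 : 0 ≤ (P.card : ℝ) ^ (2 / 3 : ℝ) * (L.card : ℝ) ^ (1 / 2 : ℝ) := by positivity
      have h3 : (0 : ℝ) ≤ L.card := by positivity
      linarith

end Pool.Agent.Results.MP_ef9ee6_co.TwoLinesInAPlane
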